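import Pool.Agent.helper10.EXT3.ISC
import Pool.Agent.helper15.EXT3.ISE
import Pool.Agent.helper18.EXT3.IM2
import Pool.Agent.helper19.EXT3.IM0
import Pool.Agent.helper25.EXT.YSS
import Pool.Agent.helper27.EXT.CLF
import Pool.Agent.helper28.EXT.UPR
import Pool.Agent.helper29.EXT.THF
import Pool.Agent.helper30.EXT3.IJC
import Pool.Agent.helper36.EXT.CUT
import Pool.Agent.helper36.EXT.PEF
import Pool.Agent.helper39.EXT.PCS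
import Pool.Agent.helper40.EXT3.I3F
import Pool.Agent.helper41.EXT.GMT
import Pool.Agent.helper43.EXT.IMF
import Pool.Agent.helper43.EXT.LST
import Pool.Agent.helper44.EXT.SIG
import Pool.Agent.helper45.EXT3.IC0
import Pool.Agent.helper47.EXT.SYT
import Pool.Agent.helper48.EXT.GEF
import Pool.Agent.helper48.EXT.NKF
import Pool.Agent.helper48.EXT.NRS
import Pool.Agent.helper50.EXT.GEP
import Pool.Agent.helper51.EXT.CNF
import Pool.Agent.helper54.EXT.SGR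
import Pool.Agent.helper54.EXT3.IFN
import Pool.Agent.helper56.EXT.PLF
import Pool.Agent.helper56.EXT.UNF
import Pool.Agent.helper6.EXT.CXT
import Pool.Agent.helper61.EXT.RKS
import Pool.Agent.helper61.EXT.UDC
import Pool.Agent.helper64.EXT3.IAD
import Pool.Agent.helper66.EXT.FXF
import Pool.Agent.helper67.EXT.WST
import Pool.Agent.helper68.EXT.FPT
import Pool.Agent.helper68.EXT.GRQ
import Pool.Agent.helper68.EXT3.IPR
import Pool.Agent.helper69.EXT3.ISL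
import Pool.Agent.helper71.EXT.TFS
import Pool.Agent.helper74.EXT.RTF
import Pool.Agent.helper79.EXT3.IW2
import Pool.Agent.helper80.EXT.ARF
import Pool.Agent.helper80.EXT.BPF
import Pool.Agent.helper84.EXT3.IM1
import Pool.Agent.helper87.EXT.ACS
import Pool.Agent.helper89.EXT.GFX
import Pool.Agent.helper9.EXT.ESF
import Pool.Agent.helper9.EXT3.IKS
import Pool.Agent.helper90.EXT.WPS
import Pool.Agent.helper98.EXT.RPF

/-!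
# Project EXT (MP_561ff4_al), block I (`r = 3` for `F₄(q)`, `²E₆(q)`): all rows put together
-/

set_option autoImplicit false

namespace Pool.Agent.EXT.A3T

theorem h_IPR : Pool.Agent.EXT.IPR_stmt := Pool.Agent.EXT.IPR
theorem h_LST : Pool.Agent.EXT.LST_stmt := Pool.Agent.EXT.LST
theorem h_RTF : Pool.Agent.EXT.RTF_stmt := Pool.Agent.EXT.RTF h_LST
theorem h_SIG : Pool.Agent.EXT.SIG_stmt := Pool.Agent.EXT.SIG h_RTF
theorem h_SGR : Pool.Agent.EXT.SGR_stmt := Pool.Agent.EXT.SGR h_RTF h_SIG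
theorem h_ESF : Pool.Agent.EXT.ESF_stmt := Pool.Agent.EXT.ESF h_SIG h_SGR
theorem h_IW2 : Pool.Agent.EXT.IW2_stmt := Pool.Agent.EXT.IW2 h_RTF h_ESF h_SIG h_SGR
theorem h_ACS : Pool.Agent.EXT.ACS_stmt := Pool.Agent.EXT.ACS h_RTF
theorem h_WST : Pool.Agent.EXT.WST_stmt := Pool.Agent.EXT.WST h_LST h_RTF
theorem h_GFX : Pool.Agent.EXT.GFX_stmt := Pool.Agent.EXT.GFX h_RTF h_SIG h_SGR h_ESF h_ACS h_WST
theorem h_NRS : Pool.Agent.EXT.NRS_stmt := Pool.Agent.EXT.NRS h_RTF h_SGR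
theorem h_GEP : Pool.Agent.EXT.GEP_stmt := Pool.Agent.EXT.GEP h_RTF h_WST h_SIG h_SGR h_NRS
theorem h_WPS : Pool.Agent.EXT.WPS_stmt := Pool.Agent.EXT.WPS h_NRS h_GEP h_WST
theorem h_UPR : Pool.Agent.EXT.UPR_stmt := Pool.Agent.EXT.UPR
theorem h_UDC : Pool.Agent.EXT.UDC_stmt := Pool.Agent.EXT.UDC h_RTF h_SIG h_SGR h_UPR
theorem h_RKS : Pool.Agent.EXT.RKS_stmt := Pool.Agent.EXT.RKS h_RTF h_ACS
theorem h_YSS : Pool.Agent.EXT.YSS_stmt := Pool.Agent.EXT.YSS h_SGR h_GEP h_UPR h_UDC h_RKS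
theorem h_PCS : Pool.Agent.EXT.PCS_stmt := Pool.Agent.EXT.PCS h_RTF h_WST h_WPS h_ESF h_YSS
theorem h_UNF : Pool.Agent.EXT.UNF_stmt := Pool.Agent.EXT.UNF h_ESF h_GFX h_PCS h_RTF
theorem h_NKF : Pool.Agent.EXT.NKF_stmt := Pool.Agent.EXT.NKF h_RTF h_SIG h_SGR h_ESF h_GFX h_ACS h_LST
theorem h_FXF : Pool.Agent.EXT.FXF_stmt := Pool.Agent.EXT.FXF h_ESF h_GFX h_UNF h_NKF
theorem h_TFS : Pool.Agent.EXT.TFS_stmt := Pool.Agent.EXT.TFS h_RTF h_WST h_WPS h_ESF h_GFX h_SGR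
theorem h_IC0 : Pool.Agent.EXT.IC0_stmt := Pool.Agent.EXT.IC0 h_IW2 h_FXF h_GFX h_TFS
theorem h_IFN : Pool.Agent.EXT.IFN_stmt := Pool.Agent.EXT.IFN h_RTF h_SGR h_PCS h_TFS
theorem h_THF : Pool.Agent.EXT.THF_stmt := Pool.Agent.EXT.THF h_RTF h_ESF h_GFX h_PCS h_UNF h_TFS h_WST h_SGR
theorem h_IMF : Pool.Agent.EXT.IMF_stmt := Pool.Agent.EXT.IMF h_ESF h_GFX h_PCS h_UNF h_THF h_TFS
theorem h_IM0 : Pool.Agent.EXT.IM0_stmt := Pool.Agent.EXT.IM0 h_IC0 h_IFN h_IMF h_TFS h_PCS h_ESF h_GFX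
theorem h_IJC : Pool.Agent.EXT.IJC_stmt := Pool.Agent.EXT.IJC h_FXF h_ESF h_GFX h_SIG
theorem h_IAD : Pool.Agent.EXT.IAD_stmt := Pool.Agent.EXT.IAD h_RTF h_ESF h_SGR
theorem h_IM1 : Pool.Agent.EXT.IM1_stmt := Pool.Agent.EXT.IM1 h_IJC h_IFN h_IAD h_IMF h_TFS h_UNF h_ESF h_GFX
theorem h_ISE : Pool.Agent.EXT.ISE_stmt := Pool.Agent.EXT.ISE h_ESF h_GFX h_UNF h_IMF h_TFS h_IAD
theorem h_CNF : Pool.Agent.EXT.CNF_stmt := Pool.Agent.EXT.CNF h_LST h_RTF h_WST h_WPS h_SGR h_ESF h_TFS h_ACS h_GEP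
theorem h_ISC : Pool.Agent.EXT.ISC_stmt := Pool.Agent.EXT.ISC h_ISE h_CNF h_IMF h_TFS h_ESF h_GFX h_RTF
theorem h_ISL : Pool.Agent.EXT.ISL_stmt := Pool.Agent.EXT.ISL h_ESF h_GFX h_UNF h_RTF
theorem h_IKS : Pool.Agent.EXT.IKS_stmt := Pool.Agent.EXT.IKS h_ESF h_GFX h_UNF
theorem h_IM2 : Pool.Agent.EXT.IM2_stmt := Pool.Agent.EXT.IM2 h_IW2 h_ISC h_ISL h_IKS h_FXF h_ESF h_GFX h_TFS h_SIG
theorem h_GEF : Pool.Agent.EXT.GEF_stmt := Pool.Agent.EXT.GEF h_RTF h_WST h_WPS h_ESF h_GFX h_PCS h_TFS h_UNF h_IMF h_FXF h_SGR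
theorem h_I3F : Pool.Agent.EXT.I3F_stmt := Pool.Agent.EXT.I3F h_IPR h_IM0 h_IM1 h_IM2 h_GEF h_PCS h_TFS
theorem h_CLF : Pool.Agent.EXT.CLF_stmt := Pool.Agent.EXT.CLF h_LST h_RTF h_WST h_WPS h_SGR h_ESF h_TFS
theorem h_PLF : Pool.Agent.EXT.PLF_stmt := Pool.Agent.EXT.PLF h_CLF h_IMF h_TFS h_PCS h_UNF h_ESF h_GFX h_SIG
theorem h_RPF : Pool.Agent.EXT.RPF_stmt := Pool.Agent.EXT.RPF h_PLF h_CNF h_IMF h_TFS h_PCS h_FXF h_ESF h_GFX h_UNF h_SGR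
theorem h_PEF : Pool.Agent.EXT.PEF_stmt := Pool.Agent.EXT.PEF h_SGR h_TFS
theorem h_GRQ : Pool.Agent.EXT.GRQ_stmt := Pool.Agent.EXT.GRQ
theorem h_BPF : Pool.Agent.EXT.BPF_stmt := Pool.Agent.EXT.BPF h_RPF h_PEF h_FXF h_GFX h_GRQ
theorem h_FPT : Pool.Agent.EXT.FPT_stmt := Pool.Agent.EXT.FPT h_RTF h_SGR h_ESF h_YSS h_ACS
theorem h_SYT : Pool.Agent.EXT.SYT_stmt := Pool.Agent.EXT.SYT h_RTF h_SGR h_ESF h_GFX h_FPT
theorem h_CUT : Pool.Agent.EXT.CUT_stmt := Pool.Agent.EXT.CUT h_LST h_RTF h_SIG h_SGR h_ESF h_GFX h_ACS h_UNF h_YSS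
theorem h_GMT : Pool.Agent.EXT.GMT_stmt := Pool.Agent.EXT.GMT h_LST h_RTF h_SIG h_SGR h_GFX h_ACS
theorem h_CXT : Pool.Agent.EXT.CXT_stmt := Pool.Agent.EXT.CXT h_RTF h_SIG h_SGR h_CUT h_GMT
theorem h_ARF : Pool.Agent.EXT.ARF_stmt := Pool.Agent.EXT.ARF h_WST h_WPS h_SGR h_ESF h_GFX h_SYT h_CXT h_RTF

end Pool.Agent.EXT.A3T
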