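import Pool.Agent.helper53.EXT.SpecB

/-!
# Project EXT (MP_561ff4_al), row ftb:B57: graph automorphisms of `F₄(2^f)`, `r = 5, 7`
-/

set_option autoImplicit false

open Finset

namespace Pool.Agent.EXT

open Pool.Agent.EXC

/-- `f` is induced by `g` -/
def B57_Ind {K : Type} [Field K] (f : GF (RingEquiv.refl K)) (g : Lm C6 K ≃ₗ[K] Lm C6 K) : Prop :=
  ∀ v : LT (RingEquiv.refl K), ((f : Equiv.Perm (LT (RingEquiv.refl K))) v : Lm C6 K) = g v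

theorem B57_one {K : Type} [Field K] : B57_Ind (1 : GF (RingEquiv.refl K)) 1 := fun _ => rfl

theorem B57_mul {K : Type} [Field K] {f f' : GF (RingEquiv.refl K)} {g g' : Lm C6 K ≃ₗ[K] Lm C6 K} (h : B57_Ind f g)
    (h' : B57_Ind f' g') : B57_Ind (f * f') (g * g') := by
  intro v
  have e1 : (((f * f' : GF (RingEquiv.refl K)) : Equiv.Perm (LT (RingEquiv.refl K))) v) =
      (f : Equiv.Perm (LT (RingEquiv.refl K))) ((f' : Equiv.Perm (LT (RingEquiv.refl K))) v) := rfl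
  rw [e1, h, h']
  rfl

theorem B57_inv {K : Type} [Field K] {f : GF (RingEquiv.refl K)} {g : Lm C6 K ≃ₗ[K] Lm C6 K} (h : B57_Ind f g) :
    B57_Ind f⁻¹ g⁻¹ := by
  intro v
  have e := h (((f⁻¹ : GF (RingEquiv.refl K)) : Equiv.Perm (LT (RingEquiv.refl K))) v)
  have e2 : (f : Equiv.Perm (LT (RingEquiv.refl K))) (((f⁻¹ : GF (RingEquiv.refl K)) : Equiv.Perm (LT (RingEquiv.refl K))) v) = v :=
    (f : Equiv.Perm (LT (RingEquiv.refl K))).apply_symm_apply v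
  rw [e2] at e
  rw [e]
  exact (LinearEquiv.symm_apply_apply g _).symm

theorem B57_pow {K : Type} [Field K] {f : GF (RingEquiv.refl K)} {g : Lm C6 K ≃ₗ[K] Lm C6 K} (h : B57_Ind f g) (m : ℕ) :
    B57_Ind (f ^ m) (g ^ m) := by
  induction m with
  | zero => rw [pow_zero, pow_zero]; exact B57_one
  | succ m ih => rw [pow_succ, pow_succ]; exact B57_mul ih h

theorem B57_prod {K : Type} [Field K] (k : ℕ) (f : Fin k → GF (RingEquiv.refl K)) (g : Fin k → (Lm C6 K ≃ₗ[K] Lm C6 K))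
    (h : ∀ i, B57_Ind (f i) (g i)) : B57_Ind (List.ofFn f).prod (List.ofFn g).prod := by
  induction k with
  | zero => simpa using B57_one
  | succ k ih =>
    rw [List.ofFn_succ, List.ofFn_succ, List.prod_cons, List.prod_cons]
    exact B57_mul (h 0) (ih _ _ fun i => h _)

theorem B57_mpow (hB0A : B0A_stmt) {K : Type} [Field K] (φ : ZMod 2 →+* K) {g : Lm C6 K ≃ₗ[K] Lm C6 K}
    {P : Matrix (Fin 6) (Fin 6) (ZMod 2)} (h : Mq φ g P) (m : ℕ) : Mq φ (g ^ m) (P ^ m) := by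
  obtain ⟨-, -, -, -, -, -, hmul, -, h1⟩ := hB0A K φ g
  induction m with
  | zero => rw [pow_zero, pow_zero]; exact h1
  | succ m ih =>
    rw [pow_succ' g, pow_succ' P]
    exact hmul _ _ _ h ih

theorem B57_core (hB0A : B0A_stmt) (hB0N : B0N_stmt) (hGFX : GFX_stmt) (hGRQ : GRQ_stmt) (hFXF : FXF_stmt)
    (K : Type) [Field K] [Finite K] (φ : ZMod 2 →+* K) (x : MulAut (GF (RingEquiv.refl K))) (t f₀ : GF (RingEquiv.refl K))
    (y : Lm C6 K ≃ₗ[K] Lm C6 K) (hy : B57_Ind (f₀ * (x t * t⁻¹) * f₀⁻¹) y) (r k : ℕ) (hr : r.Prime) (hk : 1 ≤ k)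
    (h : Fin k → (Lm C6 K ≃ₗ[K] Lm C6 K)) (hh : ∀ i, h i ∈ GS (RingEquiv.refl K)) (Q : Matrix (Fin 6) (Fin 6) (ZMod 2))
    (hQ : Mq φ (List.ofFn fun i => h i * y * (h i)⁻¹).prod Q) (hQr : Q ^ r = 1) (hQ1 : Q ≠ 1) : 2 * k ∈ Pool.Agent.GS.CSet r x := by
  have hfin : Finite (GF (RingEquiv.refl K)) := by
    have h0 : Finite (Lm C6 K) := by
      unfold Lm
      infer_instance
    have h1 : Finite (Equiv.Perm (LT (RingEquiv.refl K))) := inferInstance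
    infer_instance
  have hτ : ∀ u : K, RingEquiv.refl K (RingEquiv.refl K u) = u := fun _ => rfl
  have hex : ∀ i, ∃ f : GF (RingEquiv.refl K), B57_Ind f (h i) := by
    intro i
    obtain ⟨f, hf, hf'⟩ := (hGFX K (RingEquiv.refl K) hτ).1 (h i) (hh i)
    exact ⟨⟨f, hf⟩, hf'⟩
  choose F hF using hex
  have hZ : B57_Ind (List.ofFn fun i => F i * (f₀ * (x t * t⁻¹) * f₀⁻¹) * (F i)⁻¹).prod
      (List.ofFn fun i => h i * y * (h i)⁻¹).prod :=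
    B57_prod k _ _ fun i => B57_mul (B57_mul (hF i) hy) (B57_inv (hF i))
  refine hGRQ (GF (RingEquiv.refl K)) x t r k (fun i => F i * f₀) _ hk
    (show (List.ofFn fun i => F i * (f₀ * (x t * t⁻¹) * f₀⁻¹) * (F i)⁻¹).prod ∈ _ from ?_) ?_
  · refine Subgroup.list_prod_mem _ fun z hz => ?_
    rw [List.mem_ofFn] at hz
    obtain ⟨i, rfl⟩ := hz
    refine Subgroup.subset_closure ⟨i, ?_⟩
    simp only
    group
  · intro m hm
    have h1 : (List.ofFn fun i => F i * (f₀ * (x t * t⁻¹) * f₀⁻¹) * (F i)⁻¹).prod ^ m = 1 := by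
      refine (hFXF K (RingEquiv.refl K) hτ).2 _ fun g => ?_
      rw [← map_pow] at hm
      have h2 := congrArg (fun φ : MulAut (GF (RingEquiv.refl K)) => φ g) hm
      simp only [MulAut.conj_apply, MulAut.one_apply] at h2
      rw [mul_inv_eq_iff_eq_mul] at h2
      exact h2
    have h2 := B57_pow hZ m
    rw [h1] at h2
    have h3 : Q ^ m = 1 := by
      refine hB0N K φ _ _ (B57_mpow hB0A φ hQ m) fun v hv => ?_
      have := h2 ⟨v, hv⟩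
      exact this.symm
    have h4 : orderOf Q = r := orderOf_eq_prime hQr hQ1 (hp := ⟨hr⟩)
    rw [← h4]
    exact orderOf_dvd_of_pow_eq_one h3

theorem B57 (hB0A : B0A_stmt) (hB0N : B0N_stmt) (hB0Y : B0Y_stmt) (hB0P : B0P_stmt) (hSGR : SGR_stmt) (hGFX : GFX_stmt)
    (hGRQ : GRQ_stmt) (hFXF : FXF_stmt) : B57_stmt := by
  intro K _ _ φ x hx
  have hτ : ∀ u : K, RingEquiv.refl K (RingEquiv.refl K u) = u := fun _ => rfl
  obtain ⟨t, f₀, y, hyS, hyM, hy⟩ := hB0Y K φ x hx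
  obtain ⟨p1, p2, p3, p4, p5, p6, p7⟩ := hB0P
  obtain ⟨hs1, hs2, -⟩ := hSGR K (RingEquiv.refl K) hτ
  obtain ⟨n0, hn0, hx0⟩ := hs2 (-sr 3) 1 (by unfold LR; decide +kernel) (map_one _)
  obtain ⟨n1, hn1, hx1⟩ := hs1 (-sr 2) 1 (by unfold SR; decide +kernel)
  obtain ⟨n2, hn2, hx2⟩ := hs1 (-sr 0) 1 (by unfold SR; decide +kernel)
  obtain ⟨q2, hq2, hx3⟩ := hs1 (sr 0) 1 (by unfold SR; decide +kernel)
  have m0 : Mq φ n0 (LN 0) := (hB0A K φ n0).2.1 hx0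
  have m1 : Mq φ n1 (LN 1) := (hB0A K φ n1).2.2.2.1 hx1
  have m2 : Mq φ n2 (LN 2) := (hB0A K φ n2).2.2.2.2.2.1 hx2
  have m3 : Mq φ q2 (LP 2) := (hB0A K φ q2).2.2.2.2.1 hx3
  have hmul : ∀ (g g' : Lm C6 K ≃ₗ[K] Lm C6 K) (P P' : Matrix (Fin 6) (Fin 6) (ZMod 2)), Mq φ g P → Mq φ g' P' → Mq φ (g * g') (P * P') :=
    fun g g' P P' h h' => (hB0A K φ g).2.2.2.2.2.2.1 g' P P' h h'
  have hinv : ∀ (g : Lm C6 K ≃ₗ[K] Lm C6 K) (P P' : Matrix (Fin 6) (Fin 6) (ZMod 2)), P * P' = 1 → Mq φ g P → Mq φ g⁻¹ P' :=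
    fun g P P' h h' => (hB0A K φ g).2.2.2.2.2.2.2.1 P P' h h'
  have m01 : Mq φ (n0 * n1) (LN 0 * LN 1) := hmul _ _ _ _ m0 m1
  have m01i : Mq φ (n0 * n1)⁻¹ (LN 1 * LN 0) := hinv _ (LN 0 * LN 1) _ (by
    rw [mul_assoc, ← mul_assoc (LN 1), p3 1, one_mul, p3 0]) m01
  have m1i : Mq φ n1⁻¹ (LN 1) := hinv _ (LN 1) _ (p3 1) m1
  have m321 : Mq φ (q2 * n2 * n1) (LP 2 * LN 2 * LN 1) := hmul _ _ _ _ (hmul _ _ _ _ m3 m2) m1
  have m321i : Mq φ (q2 * n2 * n1)⁻¹ (LN 1 * LN 2 * LP 2) := hinv _ (LP 2 * LN 2 * LN 1) _ (by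
    rw [mul_assoc (LP 2 * LN 2), mul_assoc (LN 1), ← mul_assoc (LN 1) (LN 1), p3 1, one_mul, mul_assoc (LP 2), ← mul_assoc (LN 2), p3 2,
      one_mul, p2 2]) m321
  constructor
  · refine B57_core hB0A hB0N hGFX hGRQ hFXF K φ x t f₀ y hy 5 2 (by norm_num) (by norm_num) ![1, n0 * n1] ?_
      (P0 * (LN 0 * LN 1 * P0 * (LN 1 * LN 0))) ?_ p4 p5
    · intro i
      fin_cases i
      · exact one_mem _
      · exact mul_mem hn0 hn1
    · have e : (List.ofFn fun i : Fin 2 => (![1, n0 * n1] : Fin 2 → (Lm C6 K ≃ₗ[K] Lm C6 K)) i * y *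
          ((![1, n0 * n1] : Fin 2 → (Lm C6 K ≃ₗ[K] Lm C6 K)) i)⁻¹).prod = y * ((n0 * n1) * y * (n0 * n1)⁻¹) := by
        simp only [List.ofFn_succ, List.ofFn_zero, List.prod_cons, List.prod_nil, Matrix.cons_val_zero, Matrix.cons_val_succ, one_mul, inv_one,
          mul_one]
      rw [e]
      exact hmul _ _ _ _ hyM (hmul _ _ _ _ (hmul _ _ _ _ m01 hyM) m01i)
  · refine B57_core hB0A hB0N hGFX hGRQ hFXF K φ x t f₀ y hy 7 3 (by norm_num) (by norm_num) ![1, n1, q2 * n2 * n1] ?_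
      (P0 * (LN 1 * P0 * LN 1) * (LP 2 * LN 2 * LN 1 * P0 * (LN 1 * LN 2 * LP 2))) ?_ p6 p7
    · intro i
      fin_cases i
      · exact one_mem _
      · exact hn1
      · exact mul_mem (mul_mem hq2 hn2) hn1
    · have e : (List.ofFn fun i : Fin 3 => (![1, n1, q2 * n2 * n1] : Fin 3 → (Lm C6 K ≃ₗ[K] Lm C6 K)) i * y *
          ((![1, n1, q2 * n2 * n1] : Fin 3 → (Lm C6 K ≃ₗ[K] Lm C6 K)) i)⁻¹).prod = y * (n1 * y * n1⁻¹) * ((q2 * n2 * n1) * y * (q2 * n2 * n1)⁻¹) := by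
        simp only [List.ofFn_succ, List.ofFn_zero, List.prod_cons, List.prod_nil, Matrix.cons_val_zero, Matrix.cons_val_succ, one_mul, inv_one,
          mul_one, mul_assoc]
      rw [e]
      exact hmul _ _ _ _ (hmul _ _ _ _ hyM (hmul _ _ _ _ (hmul _ _ _ _ m1 hyM) m1i)) (hmul _ _ _ _ (hmul _ _ _ _ m321 hyM) m321i)

end Pool.Agent.EXT
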