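import Pool.Agent.helper32.EXT.Spec7

/-!
# Project EXT (MP_561ff4_al), row ft7:BXS: a long root vector with two prescribed form values
-/

set_option autoImplicit false

open Finset

namespace Pool.Agent.EXT

open Pool.Agent.EXC

theorem BXS_lr : LR (sr 1) ∧ LR (sr 3) ∧ LR (-sr 1) ∧ LR (-sr 3) ∧ LR th ∧ LR (-th) ∧ LR (th - sr 1) ∧ LR (-(sr 1 + sr 3)) ∧
    LR (sr 1 + sr 3 - th) := by
  unfold LR
  decide +kernel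

theorem BXS_ip : ip C6 th (sr 1) = 1 ∧ ip C6 (sr 1) th = 1 ∧ ip C6 (sr 1) (sr 1) = 2 ∧ ip C6 (sr 3) (sr 3) = 2 ∧ ip C6 (sr 1) (-th) = -1 ∧
    ip C6 (sr 1 + sr 3 - th) (-(sr 1 + sr 3)) = -1 ∧ ip C6 (sr 1) (-(sr 1 + sr 3)) = -1 ∧ ip C6 th (sr 1 + -th) = -1 ∧
    ip C6 (th - sr 1) (-th) = -1 ∧ ip C6 (th - sr 1) th = 1 ∧ ip C6 (sr 1) (th - sr 1) = -1 ∧ ip C6 th (sr 3) = 0 ∧ ip C6 th (-sr 1) = -1 ∧
    ip C6 th (-th) = -2 ∧ ip C6 th (th - sr 1) = 1 ∧ ip C6 (sr 1 + -th) (sr 1 + -th) = 2 ∧ ip C6 th th = 2 ∧ ip C6 (-th) (-th) = 2 ∧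
    ip C6 (th - sr 1) (th - sr 1) = 2 ∧ ip C6 (-sr 1) (-sr 1) = 2 ∧ ip C6 (-sr 3) (-sr 3) = 2 ∧
    ip C6 (sr 1 + sr 3 - th) (sr 1 + sr 3 - th) = 2 ∧ ip C6 (-(sr 1 + sr 3)) (-(sr 1 + sr 3)) = 2 := by
  decide +kernel

theorem BXS_add : (sr 1 + sr 3 - th) + -(sr 1 + sr 3) = (-th : Fin 6 → ℤ) ∧ sr 1 + -(sr 1 + sr 3) = (-sr 3 : Fin 6 → ℤ) ∧
    th + (sr 1 + -th) = (sr 1 : Fin 6 → ℤ) ∧ (th - sr 1) + -th = (-sr 1 : Fin 6 → ℤ) ∧ sr 1 + (th - sr 1) = (th : Fin 6 → ℤ) ∧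
    -(th - sr 1) = (sr 1 + -th : Fin 6 → ℤ) ∧ -(-sr 1) = (sr 1 : Fin 6 → ℤ) ∧ -(-th) = (th : Fin 6 → ℤ) := by
  decide +kernel

theorem BXS_ne : (-th : Fin 6 → ℤ) ≠ sr 1 + -th ∧ (sr 1 + -th : Fin 6 → ℤ) ≠ -th ∧ (-th : Fin 6 → ℤ) ≠ -(sr 1 + sr 3) ∧ (-th : Fin 6 → ℤ) ≠ -sr 3 ∧
    (-sr 3 : Fin 6 → ℤ) ≠ -(sr 1 + sr 3) ∧ (-sr 3 : Fin 6 → ℤ) ≠ -th ∧ (-sr 3 : Fin 6 → ℤ) ≠ sr 1 + -th ∧ (-th : Fin 6 → ℤ) ≠ th ∧
    (-th : Fin 6 → ℤ) ≠ sr 1 ∧ (sr 1 : Fin 6 → ℤ) ≠ -th ∧ (sr 1 : Fin 6 → ℤ) ≠ th ∧ (sr 1 : Fin 6 → ℤ) ≠ sr 1 + -th ∧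
    (-th : Fin 6 → ℤ) ≠ -sr 1 ∧ (-th : Fin 6 → ℤ) ≠ th - sr 1 ∧ (th : Fin 6 → ℤ) ≠ -th ∧ (th : Fin 6 → ℤ) ≠ sr 1 + -th ∧
    (th : Fin 6 → ℤ) ≠ -sr 1 ∧ (th : Fin 6 → ℤ) ≠ sr 1 ∧ (th : Fin 6 → ℤ) ≠ th - sr 1 := by
  decide +kernel

/-- the signs are fixed -/
theorem BXS_sg {K : Type} [Field K] (τ : K ≃+* K) (v w : Fin 6 → ℤ) : τ ((sg C6 v w : ℤ) : K) = ((sg C6 v w : ℤ) : K) :=
  map_intCast τ _

theorem BXS_std (hESF : ESF_stmt) (hSGR : SGR_stmt) (K : Type) [Field K] (τ : K ≃+* K) (hτ : ∀ x, τ (τ x) = x) (k l : K)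
    (hk : τ k = k) (hl : τ l = l) (hk0 : k ≠ 0) :
    (∃ b, ExS τ b ∧ cf b (-th) = k ∧ cf b (sr 1 + -th) = l) ∧ (l ≠ 0 → ∃ b, ExS τ b ∧ cf b (-th) = k ∧ cf b (-sr 3) = l) ∧
    (∃ b, ExS τ b ∧ cf b (-th) = k ∧ cf b (sr 1) = l) ∧ ∃ b, ExS τ b ∧ cf b (-th) = k ∧ cf b th = l := by
  obtain ⟨r1, r2, r3, r4, r5, r6, r7, r8, r9⟩ := BXS_lr
  obtain ⟨i1, i2, i3, i4, i5, i6, i7, i8, i9, i10, i11, i12, i13, i14, i15, i16, i17, i18, i19, i20, i21, i22, i23⟩ := BXS_ip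
  obtain ⟨a1, a2, a3, a4, a5, a6, a7, a8⟩ := BXS_add
  obtain ⟨n1, n2, n3, n4, n5, n6, n7, n8, n9, n10, n11, n12, n13, n14, n15, n16, n17, n18, n19⟩ := BXS_ne
  obtain ⟨hE0, hE⟩ := hESF K τ hτ
  have hG := (hSGR K τ hτ).2.1
  have hS : ∀ (α : Fin 6 → ℤ) (t : K), LR α → τ t = t → ∃ g : Lm C6 K ≃ₗ[K] Lm C6 K, (∀ v, g v = xe C6 (E C6 α) t v) ∧
      ∀ a, ExS τ a → ExS τ (g a) := by
    intro α t hα ht
    obtain ⟨g, hg, hx⟩ := hG α t hα ht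
    exact ⟨g, hx, fun a ha => (hE a ha).2.2.2.1 g hg⟩
  have hsm : ∀ (c : K) (a : Lm C6 K), ExS τ a → τ c = c → c ≠ 0 → ExS τ (c • a) := fun c a ha h1 h2 => (hE a ha).2.2.2.2.1 c h1 h2
  refine ⟨?_, ?_, ?_, ?_⟩
  · -- type 1
    obtain ⟨ε, hε⟩ : ∃ ε : K, ε = ((sg C6 (sr 1) (-th) : ℤ) : K) := ⟨_, rfl⟩
    have hετ : τ ε = ε := by rw [hε]; exact BXS_sg τ _ _
    have hεε : ε * ε = 1 := by rw [hε]; exact sg_sq C6 _ _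
    obtain ⟨g, hx, hg⟩ := hS (sr 1) (ε * l / k) r1 (by rw [map_div₀, map_mul, hετ, hl, hk])
    refine ⟨g (k • E C6 (-th)), hg _ (hsm k _ (hE0 _ r6) hk hk0), ?_, ?_⟩
    · rw [map_smul, hx, (f_ACT 6 C6 K (sr 1) _ i3).2.1 _ i18 i5, cf_smul, cf_add, cf_smul, cf_E C6 i18, cf_E C6 i16, if_pos rfl, if_neg n1]
      ring
    · rw [map_smul, hx, (f_ACT 6 C6 K (sr 1) _ i3).2.1 _ i18 i5, cf_smul, cf_add, cf_smul, cf_E C6 i18, cf_E C6 i16, if_pos rfl, if_neg n2, ← hε]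
      field_simp
      linear_combination l * hεε
  · -- type 0
    intro hl0
    obtain ⟨ε, hε⟩ : ∃ ε : K, ε = ((sg C6 (sr 1 + sr 3 - th) (-(sr 1 + sr 3)) : ℤ) : K) := ⟨_, rfl⟩
    have hετ : τ ε = ε := by rw [hε]; exact BXS_sg τ _ _
    have hεε : ε * ε = 1 := by rw [hε]; exact sg_sq C6 _ _
    obtain ⟨ε', hε'⟩ : ∃ ε' : K, ε' = ((sg C6 (sr 1) (-(sr 1 + sr 3)) : ℤ) : K) := ⟨_, rfl⟩
    have hετ' : τ ε' = ε' := by rw [hε']; exact BXS_sg τ _ _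
    have hεε' : ε' * ε' = 1 := by rw [hε']; exact sg_sq C6 _ _
    obtain ⟨g, hx, hg⟩ := hS (sr 1 + sr 3 - th) (ε * k) r9 (by rw [map_mul, hετ, hk])
    obtain ⟨g', hx', hg'⟩ := hS (sr 1) (ε' * l) r1 (by rw [map_mul, hετ', hl])
    have key : g' (g (E C6 (-(sr 1 + sr 3)))) = (E C6 (-(sr 1 + sr 3)) + (ε' * l * ε') • E C6 (-sr 3) +
        (ε * k * ε) • (E C6 (-th) + (ε' * l * ((sg C6 (sr 1) (-th) : ℤ) : K)) • E C6 (sr 1 + -th)) : Lm C6 K) := by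
      rw [hx, (f_ACT 6 C6 K _ _ i22).2.1 _ i23 i6, a1, ← hε, map_add, map_smul, hx', hx', (f_ACT 6 C6 K (sr 1) _ i3).2.1 _ i23 i7,
        (f_ACT 6 C6 K (sr 1) _ i3).2.1 _ i18 i5, a2, ← hε']
    refine ⟨g' (g (E C6 (-(sr 1 + sr 3)))), hg' _ (hg _ (hE0 _ r8)), ?_, ?_⟩
    · rw [key]
      simp only [cf_add, cf_smul, cf_E C6 i23, cf_E C6 i21, cf_E C6 i18, cf_E C6 i16, if_neg n3, if_neg n4, if_neg n1, if_true]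
      linear_combination k * hεε
    · rw [key]
      simp only [cf_add, cf_smul, cf_E C6 i23, cf_E C6 i21, cf_E C6 i18, cf_E C6 i16, if_neg n5, if_neg n6, if_neg n7, if_true]
      linear_combination l * hεε'
  · -- type -1
    obtain ⟨ε, hε⟩ : ∃ ε : K, ε = ((sg C6 (sr 1) (-th) : ℤ) : K) := ⟨_, rfl⟩
    have hετ : τ ε = ε := by rw [hε]; exact BXS_sg τ _ _
    have hεε : ε * ε = 1 := by rw [hε]; exact sg_sq C6 _ _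
    obtain ⟨ε', hε'⟩ : ∃ ε' : K, ε' = ((sg C6 th (sr 1 + -th) : ℤ) : K) := ⟨_, rfl⟩
    have hετ' : τ ε' = ε' := by rw [hε']; exact BXS_sg τ _ _
    have hεε' : ε' * ε' = 1 := by rw [hε']; exact sg_sq C6 _ _
    obtain ⟨g, hx, hg⟩ := hS (sr 1) 1 r1 (map_one τ)
    obtain ⟨g', hx', hg'⟩ := hS th (ε * ε' * l / k) r5 (by rw [map_div₀, map_mul, map_mul, hετ, hετ', hl, hk])
    have key : g' (g (k • E C6 (-th))) = (k • ((E C6 (-th) - (ε * ε' * l / k) • ht C6 th + (ε * ε' * l / k) ^ 2 • E C6 th) +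
        ((1 : K) * ε) • (E C6 (sr 1 + -th) + (ε * ε' * l / k * ε') • E C6 (sr 1))) : Lm C6 K) := by
      rw [map_smul, hx, (f_ACT 6 C6 K (sr 1) _ i3).2.1 _ i18 i5, ← hε, map_smul, map_add, map_smul, hx', hx', (f_ACT 6 C6 K th _ i17).2.2.1,
        (f_ACT 6 C6 K th _ i17).2.1 _ i16 i8, a3, ← hε']
    refine ⟨g' (g (k • E C6 (-th))), hg' _ (hg _ (hsm k _ (hE0 _ r6) hk hk0)), ?_, ?_⟩
    · rw [key]
      simp only [cf_add, cf_sub, cf_smul, cf_ht, cf_E C6 i18, cf_E C6 i17, cf_E C6 i16, cf_E C6 i3, if_neg n1, if_neg n8, if_neg n9, if_true]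
      ring
    · rw [key]
      simp only [cf_add, cf_sub, cf_smul, cf_ht, cf_E C6 i18, cf_E C6 i17, cf_E C6 i16, cf_E C6 i3, if_neg n10, if_neg n11, if_neg n12, if_true]
      field_simp
      linear_combination (k * l * (ε' * ε')) * hεε + k * l * hεε'
  · -- type -2
    obtain ⟨ε, hε⟩ : ∃ ε : K, ε = ((sg C6 (sr 1) (th - sr 1) : ℤ) : K) := ⟨_, rfl⟩
    have hετ : τ ε = ε := by rw [hε]; exact BXS_sg τ _ _
    have hεε : ε * ε = 1 := by rw [hε]; exact sg_sq C6 _ _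
    obtain ⟨c, hc⟩ : ∃ c : K, c = ε * (l / k - 1) := ⟨_, rfl⟩
    have hcτ : τ c = c := by rw [hc, map_mul, map_sub, map_div₀, hετ, hl, hk, map_one]
    obtain ⟨g, hx, hg⟩ := hS th 1 r5 (map_one τ)
    obtain ⟨g', hx', hg'⟩ := hS (th - sr 1) c r7 hcτ
    obtain ⟨g'', hx'', hg''⟩ := hS (sr 1) 1 r1 (map_one τ)
    obtain ⟨ε₁, hε₁⟩ : ∃ ε : K, ε = ((sg C6 (th - sr 1) (-th) : ℤ) : K) := ⟨_, rfl⟩
    obtain ⟨ε₂, hε₂⟩ : ∃ ε : K, ε = ((sg C6 (sr 1) (-th) : ℤ) : K) := ⟨_, rfl⟩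
    have k1 : g (k • E C6 (-th)) = (k • (E C6 (-th) - ht C6 th + E C6 th) : Lm C6 K) := by
      rw [map_smul, hx, (f_ACT 6 C6 K th _ i17).2.2.1, one_smul, one_pow, one_smul]
    have k2 : g' (g (k • E C6 (-th))) = (k • ((E C6 (-th) + (c * ε₁) • E C6 (-sr 1)) - (ht C6 th - (c * 1) • E C6 (th - sr 1)) + E C6 th) : Lm C6 K) := by
      rw [k1, map_smul, map_add, map_sub, hx', hx', hx', (f_ACT 6 C6 K (th - sr 1) _ i19).2.1 _ i18 i9, a4,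
        (f_ACT 6 C6 K (th - sr 1) _ i19).2.2.2.2 th, i10, (f_ACT 6 C6 K (th - sr 1) _ i19).1 _ i17 (by rw [i10]; norm_num), ← hε₁, Int.cast_one]
    have k3 : g'' (g' (g (k • E C6 (-th)))) = (k • (((E C6 (-th) + ((1 : K) * ε₂) • E C6 (sr 1 + -th)) +
        (c * ε₁) • (E C6 (-sr 1) - (1 : K) • ht C6 (sr 1) + (1 : K) ^ 2 • E C6 (sr 1))) -
        ((ht C6 th - ((1 : K) * 1) • E C6 (sr 1)) - (c * 1) • (E C6 (th - sr 1) + ((1 : K) * ε) • E C6 th)) + E C6 th) : Lm C6 K) := by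
      rw [k2, map_smul, map_add, map_sub, map_add, map_sub, map_smul, map_smul, hx'', hx'', hx'', hx'', hx'',
        (f_ACT 6 C6 K (sr 1) _ i3).2.1 _ i18 i5, (f_ACT 6 C6 K (sr 1) _ i3).2.2.1, (f_ACT 6 C6 K (sr 1) _ i3).2.2.2.2 th, i2,
        (f_ACT 6 C6 K (sr 1) _ i3).2.1 _ i19 i11, a5, (f_ACT 6 C6 K (sr 1) _ i3).1 _ i17 (by rw [i2]; norm_num), ← hε₂, ← hε, Int.cast_one]
    refine ⟨g'' (g' (g (k • E C6 (-th)))), hg'' _ (hg' _ (hg _ (hsm k _ (hE0 _ r6) hk hk0))), ?_, ?_⟩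
    · rw [k3]
      simp only [cf_add, cf_sub, cf_smul, cf_ht, cf_E C6 i18, cf_E C6 i17, cf_E C6 i16, cf_E C6 i3, cf_E C6 i19, cf_E C6 i20, if_neg n1, if_neg n8,
        if_neg n9, if_neg n13, if_neg n14, if_true]
      ring
    · rw [k3]
      simp only [cf_add, cf_sub, cf_smul, cf_ht, cf_E C6 i18, cf_E C6 i17, cf_E C6 i16, cf_E C6 i3, cf_E C6 i19, cf_E C6 i20, if_neg n15, if_neg n16,
        if_neg n17, if_neg n18, if_neg n19, if_true]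
      rw [hc]
      field_simp
      linear_combination (l - k) * hεε

theorem BXS (hPCS : PCS_stmt) (hPAR : PAR_stmt) (hTFS : TFS_stmt) (hESF : ESF_stmt) (hSGR : SGR_stmt) : BXS_stmt := by
  intro K _ τ hτ c c' hc hc' hind k k' hk hk' hk0 hk0'
  obtain ⟨r1, r2, r3, r4, r5, r6, r7, r8, r9⟩ := BXS_lr
  obtain ⟨i1, i2, i3, i4, i5, i6, i7, i8, i9, i10, i11, i12, i13, i14, i15, i16, i17, i18, i19, i20, i21, i22, i23⟩ := BXS_ip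
  obtain ⟨a1, a2, a3, a4, a5, a6, a7, a8⟩ := BXS_add
  obtain ⟨m, hm1, hm2, hT⟩ := hPCS K τ hτ c c' hc hc'
  have hm3 : m ≠ 2 := by
    intro h
    obtain ⟨κ, hκ⟩ := ((hTFS K τ hτ c c' m hT).2.2.2.2.2.1).1 h
    exact hind κ hκ
  have hSG := (hSGR K τ hτ).2.2.2.2.2
  have hfin : ∀ β₀ : Fin 6 → ℤ, LR β₀ → ip C6 th β₀ = m →
      (∀ l : K, τ l = l → l ≠ 0 → ∃ b, ExS τ b ∧ cf b (-th) = k ∧ cf b (-β₀) = l) → ∃ b, ExS τ b ∧ fm C6 c b = k ∧ fm C6 c' b = k' := by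
    intro β₀ hβ₀ hip hex
    obtain ⟨g, hg, κ, hκτ, hκ, e1, e2⟩ := hPAR K τ hτ c c' m hT th β₀ r5 hβ₀ hip
    obtain ⟨b, hb, h1, h2⟩ := hex (k' / κ) (by rw [map_div₀, hk', hκτ]) (div_ne_zero hk0' hκ)
    obtain ⟨-, hAu, -⟩ := hSG g hg
    have h3 : g (g⁻¹ b) = b := by
      change (g * g⁻¹) b = _
      rw [mul_inv_cancel]
      rfl
    refine ⟨g⁻¹ b, ((hESF K τ hτ).2 b hb).2.2.2.1 _ ((GS τ).inv_mem hg), ?_, ?_⟩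
    · rw [← hAu.fm c, e1, h3, fm_E C6 i17, h1]
    · rw [← hAu.fm c', e2, h3, fm_smul_left, fm_E C6 hβ₀.1, h2]
      field_simp
  have h4 : m = -2 ∨ m = -1 ∨ m = 0 ∨ m = 1 := by omega
  rcases h4 with h | h | h | h
  · refine hfin (-th) r6 (by rw [i14, h]) fun l hl _ => ?_
    rw [a8]
    exact (BXS_std hESF hSGR K τ hτ k l hk hl hk0).2.2.2
  · refine hfin (-sr 1) r3 (by rw [i13, h]) fun l hl _ => ?_
    rw [a7]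
    exact (BXS_std hESF hSGR K τ hτ k l hk hl hk0).2.2.1
  · refine hfin (sr 3) r2 (by rw [i12, h]) fun l hl hl0 => ?_
    exact (BXS_std hESF hSGR K τ hτ k l hk hl hk0).2.1 hl0
  · refine hfin (th - sr 1) r7 (by rw [i15, h]) fun l hl _ => ?_
    rw [a6]
    exact (BXS_std hESF hSGR K τ hτ k l hk hl hk0).1

end Pool.Agent.EXT
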