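import Pool.Agent.helper53.EXT.SpecM

/-!
# Project EXT (MP_561ff4_al), block M, row NMB (helper16): commutators
-/

set_option autoImplicit false

open Finset

namespace Pool.Agent.EXT

open Pool.Agent.EXC

theorem NMB_g1 {G : Type} [Group G] (a a' b b' c c' : G) (h1 : a * b * a⁻¹ = b * c) (h2 : a' * b' * a'⁻¹ = b' * c')
    (hab' : a * b' = b' * a) (ha'b : a' * b = b * a') (hac' : a * c' = c' * a) (hcb' : c * b' = b' * c) (hcb : c * b = b * c)
    (hc'b : c' * b = b * c') (hc'b' : c' * b' = b' * c') : (a * a') * (b * b') * (a * a')⁻¹ * (b * b')⁻¹ = c * c' := by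
  have h1' : a * b = b * c * a := by rw [← h1]; group
  have h2' : a' * b' = b' * c' * a' := by rw [← h2]; group
  have e : a * a' * (b * b') = c * c' * (b * b') * (a * a') := by
    calc a * a' * (b * b') = a * (a' * b) * b' := by group
      _ = a * (b * a') * b' := by rw [ha'b]
      _ = (a * b) * (a' * b') := by group
      _ = (b * c * a) * (b' * c' * a') := by rw [h1', h2']
      _ = b * c * (a * b') * c' * a' := by group
      _ = b * c * (b' * a) * c' * a' := by rw [hab']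
      _ = b * (c * b') * (a * c') * a' := by group
      _ = b * (b' * c) * (c' * a) * a' := by rw [hcb', hac']
      _ = b * (b' * c) * c' * (a * a') := by group
      _ = b * (c * b') * c' * (a * a') := by rw [hcb']
      _ = (b * c) * (b' * c') * (a * a') := by group
      _ = (c * b) * (c' * b') * (a * a') := by rw [hcb, hc'b']
      _ = c * (b * c') * b' * (a * a') := by group
      _ = c * (c' * b) * b' * (a * a') := by rw [hc'b]
      _ = c * c' * (b * b') * (a * a') := by group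
  rw [e]
  group

theorem NMB_g2 {G : Type} [Group G] (a b b' d d' e : G) (h1 : a * b * a⁻¹ = b * d) (h2 : a * b' * a⁻¹ = b' * d')
    (h3 : d * b' * d⁻¹ = b' * e) (h4 : e * (d * d') = (d * d') * e) (h5 : (b * b') * (d * d') = (d * d') * (b * b'))
    (h6 : (b * b') * e = e * (b * b')) : a * (b * b') * a⁻¹ * (b * b')⁻¹ = (d * d') * e := by
  have h3' : d * b' = b' * e * d := by rw [← h3]; group
  have e1 : a * (b * b') * a⁻¹ = (b * b') * e * (d * d') := by
    calc a * (b * b') * a⁻¹ = (a * b * a⁻¹) * (a * b' * a⁻¹) := by group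
      _ = (b * d) * (b' * d') := by rw [h1, h2]
      _ = b * (d * b') * d' := by group
      _ = b * (b' * e * d) * d' := by rw [h3']
      _ = (b * b') * e * (d * d') := by group
  calc a * (b * b') * a⁻¹ * (b * b')⁻¹ = (b * b') * e * (d * d') * (b * b')⁻¹ := by rw [e1]
    _ = e * ((b * b') * (d * d')) * (b * b')⁻¹ := by rw [h6]; group
    _ = e * ((d * d') * (b * b')) * (b * b')⁻¹ := by rw [h5]
    _ = e * (d * d') := by group
    _ = _ := h4

theorem NMB_hb : ∀ α, ip C6 α α = 2 → ∃ β, ip C6 β β = 2 ∧ ip C6 α β = -1 :=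
  (f_NBR 6 C6 1 th ![0, 2, 3, 4, 5] f_DE6.2).1

theorem NMB_r {α β : Fin 6 → ℤ} (hα : ip C6 α α = 2) (hβ : ip C6 β β = 2) (h : ip C6 α β = -1) :
    ip C6 (α + β) (α + β) = 2 ∧ ip C6 (α + β) β = 1 ∧ ip C6 (α + β) α = 1 := by
  have h' : ip C6 β α = -1 := by rw [ip_comm]; exact h
  refine ⟨?_, ?_, ?_⟩
  · rw [ip_add_left, ip_add_right, ip_add_right, hα, hβ, h', h]
    norm_num
  · rw [ip_add_left, h, hβ]
    norm_num
  · rw [ip_add_left, h', hα]
    norm_num

section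
variable {K : Type} [Field K]

theorem NMB_com {α β : Fin 6 → ℤ} (hα : ip C6 α α = 2) (hβ : ip C6 β β = 2) (h : 0 ≤ ip C6 α β) (s t : K) :
    XG C6 α s * XG C6 β t = XG C6 β t * XG C6 α s := (GXC 6 C6 K NMB_hb α β hα hβ s t).2.2.1 h

theorem NMB_cnj (h2 : (2 : K) = 0) {α β : Fin 6 → ℤ} (hα : ip C6 α α = 2) (hβ : ip C6 β β = 2) (h : ip C6 α β = -1) (s t : K) :
    XG C6 α s * XG C6 β t * (XG C6 α s)⁻¹ = XG C6 β t * XG C6 (α + β) (s * t) := by
  have h1 := (GXC 6 C6 K NMB_hb α β hα hβ s t).2.2.2 h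
  have h3 : (sg C6 α β : K) = 1 := by
    have h4 : (-1 : K) = 1 := by linear_combination (-1 : K) * h2
    rcases sg_cases C6 α β with h' | h' <;> rw [h']
    · simp
    · push_cast
      exact h4
  rw [h3, mul_one] at h1
  exact h1

theorem NMB_long {α : Fin 6 → ℤ} (hα : LR α) (t : K) : Rt α t = XG C6 α t := by
  unfold Rt
  rw [if_pos hα.2]

theorem NMB_short {α : Fin 6 → ℤ} (hα : SR α) (t : K) : Rt α t = XG C6 α t * XG C6 (pv α) t := by
  unfold Rt
  rw [if_neg hα.2]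

end

theorem NMB (hRTF : RTF_stmt) (hNMR : NMR_stmt) (hNMA : NMA_stmt) : NMB_stmt := by
  intro K _ h2
  obtain ⟨r1, r2, r3, -, -, -, -, -, -, -, -, -, r13, -, -⟩ := hRTF
  obtain ⟨-, -, -, m4, m5, -⟩ := hNMR
  obtain ⟨-, -, -, a4⟩ := hNMA K h2
  have hsw : ∀ γ δ, ip C6 (pv γ) δ = ip C6 γ (pv δ) := fun γ δ => by
    have h := r1 γ (pv δ)
    rw [r2] at h
    exact h
  refine ⟨?_, ?_, ?_⟩
  · intro α β hα hβ h1 s t
    obtain ⟨q1, q2, q3⟩ := NMB_r hα.1 hβ.1 h1
    have hL : LR (α + β) := ⟨q1, by rw [r3, hα.2, hβ.2]⟩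
    rw [NMB_long hα, NMB_long hβ, NMB_long hL, NMB_cnj h2 hα.1 hβ.1 h1, ← NMB_com q1 hβ.1 (by rw [q2]; norm_num), mul_inv_cancel_right]
  · intro α β hα hβ h1 h3 s t
    have hS := m4 α β hα hβ h1 h3
    have p1 : ip C6 (pv α) (pv α) = 2 := by rw [r1]; exact hα.1
    have p2 : ip C6 (pv β) (pv β) = 2 := by rw [r1]; exact hβ.1
    have p3 : ip C6 (pv α) β = 0 := by rw [hsw]; exact h3
    have p4 : ip C6 (pv α) (pv β) = -1 := by rw [r1]; exact h1
    obtain ⟨q1, q2, q3⟩ := NMB_r hα.1 hβ.1 h1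
    obtain ⟨q4, q5, q6⟩ := NMB_r p1 p2 p4
    have z1 := r13 α hα
    have z2 := r13 β hβ
    have z3 : ip C6 (pv β) β = 0 := by rw [ip_comm]; exact z2
    rw [NMB_short hα, NMB_short hβ, NMB_short hS, r3]
    exact NMB_g1 _ _ _ _ _ _ (NMB_cnj h2 hα.1 hβ.1 h1 s t) (NMB_cnj h2 p1 p2 p4 s t) (NMB_com hα.1 p2 (le_of_eq h3.symm) _ _)
      (NMB_com p1 hβ.1 (le_of_eq p3.symm) _ _) (NMB_com hα.1 q4 (by rw [ip_add_right, z1, h3]; norm_num) _ _)
      (NMB_com q1 p2 (by rw [ip_add_left, h3, z2]; norm_num) _ _) (NMB_com q1 hβ.1 (by rw [q2]; norm_num) _ _)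
      (NMB_com q4 hβ.1 (by rw [ip_add_left, p3, z3]; norm_num) _ _) (NMB_com q4 p2 (by rw [q5]; norm_num) _ _)
  · intro α β hα hβ h1 s t
    obtain ⟨hS, hL⟩ := m5 α β hα hβ h1
    have p2 : ip C6 (pv β) (pv β) = 2 := by rw [r1]; exact hβ.1
    have p3 : ip C6 α (pv β) = -1 := by rw [← hsw, hα.2]; exact h1
    have z2 := r13 β hβ
    have z3 : ip C6 (pv β) β = 0 := by rw [ip_comm]; exact z2
    obtain ⟨q1, q2, q3⟩ := NMB_r hα.1 hβ.1 h1
    obtain ⟨q4, q5, q6⟩ := NMB_r hα.1 p2 p3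
    have z4 : ip C6 (α + β) (pv β) = -1 := by rw [ip_add_left, p3, z2]; norm_num
    have z5 : ip C6 (α + β) (α + pv β) = 0 := by
      rw [ip_add_right, q3, z4]; norm_num
    have c1 : cm β (α + β) := by
      change 0 ≤ ip C6 β (α + β) + ip C6 β (pv (α + β))
      rw [r3, hα.2, ip_comm C6 β (α + β), q2, ip_add_right, ip_comm C6 β α, h1, z2]
      norm_num
    have e1 := a4 β (α + β) hβ.1 q1 c1 t (s * t)
    have hLr : ip C6 (α + β + pv β) (α + β + pv β) = 2 := hL.1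
    have y1 : ip C6 (α + β + pv β) β = 1 := by rw [ip_add_left, q2, z3]; norm_num
    have y2 : ip C6 (α + β + pv β) (pv β) = 1 := by rw [ip_add_left, z4, p2]; norm_num
    have y3 : ip C6 (α + β + pv β) (α + β) = 1 := by rw [ip_add_left, q1, ip_comm C6 (pv β), z4]; norm_num
    have y4 : ip C6 (α + β + pv β) (α + pv β) = 1 := by rw [ip_add_left, z5, ip_comm C6 (pv β), q5]; norm_num
    rw [NMB_short hβ, NMB_short hS, r3, hα.2] at e1
    rw [NMB_long hα, NMB_short hβ, NMB_short hS, NMB_long hL, r3, hα.2]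
    have e2 := NMB_cnj h2 q1 p2 z4 (s * t) t
    rw [show s * t * t = s * t ^ 2 by ring] at e2
    refine NMB_g2 _ _ _ _ _ _ (NMB_cnj h2 hα.1 hβ.1 h1 s t) (NMB_cnj h2 hα.1 p2 p3 s t) e2 ?_ e1 ?_
    · have u1 := NMB_com hLr q1 (by rw [y3]; norm_num) (s * t ^ 2) (s * t)
      have u2 := NMB_com hLr q4 (by rw [y4]; norm_num) (s * t ^ 2) (s * t)
      exact (Commute.mul_right u1 u2).eq
    · have u1 := NMB_com hLr hβ.1 (by rw [y1]; norm_num) (s * t ^ 2) t
      have u2 := NMB_com hLr p2 (by rw [y2]; norm_num) (s * t ^ 2) t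
      exact (Commute.mul_right u1 u2).eq.symm

end Pool.Agent.EXT
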