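import Pool.Agent.helper53.EXT.SpecM

/-!
# Project EXT (MP_561ff4_al), block M, row NMY (helper16, after JYC of helper28): the conjugates of `x(t) t⁻¹`
-/

set_option autoImplicit false

open Finset

namespace Pool.Agent.EXT

open Pool.Agent.EXC

theorem NMY_xe_zero {K : Type} [Field K] (a v : Lm C6 K) : xe C6 a 0 v = v := by
  unfold xe
  simp

theorem NMY_pm {K : Type} [Field K] (h2 : (1 : K) + 1 = 0) {s : ℤ} (hs : s = 1 ∨ s = -1) : (s : K) = 1 := by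
  rcases hs with rfl | rfl
  · exact Int.cast_one
  · push_cast
    exact (eq_neg_of_add_eq_zero_left h2).symm

theorem NMY_ws (i : Fin 6) (v w : Fin 6 → ℤ) : ip C6 (wS i v) (wS i w) = ip C6 v w := by
  unfold wS
  by_cases h : pn i = i
  · rw [if_pos h, if_pos h, (f_RFL 6 C6 i v w).1]
  · rw [if_neg h, if_neg h, (f_RFL 6 C6 i _ _).1, (f_RFL 6 C6 (pn i) v w).1]

theorem NMY_ip (p q : (Fin 6 → ℤ) × (Fin 6 → ℤ)) (h : WS p q) : ip C6 q.1 q.2 = ip C6 p.1 p.2 := by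
  induction h with
  | refl => rfl
  | tail _ h2 ih =>
    obtain ⟨i, rfl⟩ := h2
    rw [← ih]
    exact NMY_ws i _ _

theorem NMY (hRTF : RTF_stmt) (hWPS : WPS_stmt) (hSGR : SGR_stmt) (hGFX : GFX_stmt) (hTOR : TOR_stmt) (hESF : ESF_stmt)
    (hNMR : NMR_stmt) (hNMA : NMA_stmt) (hSIG : SIG_stmt) : NMY_stmt := by
  intro K _ hK2 x hx
  have htau : ∀ c, (RingEquiv.refl K) ((RingEquiv.refl K) c) = c := fun c => rfl
  have htau1 : ∀ c, (RingEquiv.refl K) c = c := fun c => rfl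
  have h2 : (1 : K) + 1 = 0 := by
    rw [one_add_one_eq_two]
    exact hK2
  obtain ⟨rip, rpp, -, -, -, -, rsn, -, -, -, -, -, r13, rth, -⟩ := hRTF
  obtain ⟨-, -, -, -, -, hLd, i4, i5, i6, i7⟩ := hNMR
  obtain ⟨nA1, nA2, nA3, nA4⟩ := hNMA K hK2
  obtain ⟨g1, g2, g3, g4, g5, g6⟩ := hSGR K (RingEquiv.refl K) htau
  obtain ⟨-, -, -, -, -, sE, -, -⟩ := hSIG K (RingEquiv.refl K) htau
  obtain ⟨e1, e2, e3, e4⟩ := f_EXF 6 C6 K (f_NBR 6 C6 1 th ![0, 2, 3, 4, 5] f_DE6.2).1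
  have hExS := (hESF K (RingEquiv.refl K) htau).1 th rth
  obtain ⟨G1, G2⟩ := hGFX K (RingEquiv.refl K) htau
  obtain ⟨k1, k2, k3, k4, k5⟩ := G2 _ hExS
  obtain ⟨f₁, hf₁, hf₁X⟩ := k1 1 (htau1 1)
  have h0X : IsF (RingEquiv.refl K) (E C6 th) 0 (1 : Equiv.Perm (LT (RingEquiv.refl K))) := by
    intro v
    rw [NMY_xe_zero]
    rfl
  have hne : f₁ ≠ 1 := by
    intro h
    rw [h] at hf₁X
    exact zero_ne_one (k4 0 1 1 h0X hf₁X)
  have hsq : f₁ * f₁ = 1 := by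
    have h3 := k3 1 1 f₁ f₁ hf₁X hf₁X
    rw [h2] at h3
    refine Equiv.ext fun v => Subtype.ext ?_
    rw [h3 v, NMY_xe_zero]
    rfl
  let t : GF (RingEquiv.refl K) := ⟨f₁, hf₁⟩
  have htinv : t⁻¹ = t := by
    rw [inv_eq_iff_mul_eq_one]
    exact Subtype.ext hsq
  have htne : t ≠ 1 := fun h => hne (congrArg Subtype.val h)
  obtain ⟨b, gb, hgb, hb'⟩ := hx t ⟨1, htau1 1, hf₁X⟩
  have hb : ∀ v : LT (RingEquiv.refl K), (((x t : GF (RingEquiv.refl K)) : Equiv.Perm (LT (RingEquiv.refl K))) v : Lm C6 K) =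
      xe C6 (E C6 eta) b (xe C6 (E C6 (pv eta)) b v) := by
    intro v
    rw [hb' v]
    change gb (v : Lm C6 K) = _
    rw [hgb, htau1, NMY_pm h2 (rsn eta), one_mul]
  have hb0 : b ≠ 0 := by
    intro h
    apply htne
    have hxt : x t = 1 := by
      refine Subtype.ext (Equiv.ext fun v => Subtype.ext ?_)
      rw [hb v, h, NMY_xe_zero, NMY_xe_zero]
      rfl
    exact x.injective (hxt.trans (map_one x).symm)
  have hthth : ip C6 th th = 2 := rth.1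
  have hSe : SR eta := by
    refine ⟨?_, ?_⟩ <;> decide +kernel
  have hpe : ip C6 (pv eta) (pv eta) = 2 := by decide +kernel
  have hL1 : LR (sr 1) := by
    refine ⟨?_, ?_⟩ <;> decide +kernel
  have hte : ip C6 th eta = 1 := by decide +kernel
  have j1 : ip C6 (pv eta) (sr 1) = 0 := by decide +kernel
  have j2 : ip C6 (pv eta) ![1, 0, 1, 1, 1, 1] = 1 := by decide +kernel
  refine ⟨t, fun u v hu hv hws a c ha hc => ?_⟩
  have huv : ip C6 u v = 1 := (NMY_ip _ _ hws).trans hte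
  have hpv : ip C6 (pv v) (pv v) = 2 := by rw [rip]; exact hv.1
  obtain ⟨k, hk, s, s', hs, hs', hkth, hket⟩ := hWPS K (RingEquiv.refl K) htau _ _ _ _ hthth hSe.1 hws
  rw [NMY_pm h2 hs, one_smul] at hkth
  rw [NMY_pm h2 hs', one_smul] at hket
  have hkpe : k (E C6 (pv eta)) = (E C6 (pv v) : Lm C6 K) := by
    have a1 := sE eta hSe.1
    have a2 := sE v hv.1
    rw [NMY_pm h2 (rsn _), one_smul] at a1 a2
    rw [← a1, ← (g6 k hk).2.2, hket, a2]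
  obtain ⟨h₁, hh₁, hhE₁⟩ := hTOR K (RingEquiv.refl K) htau (sr 1) hL1 a (htau1 _) ha
  obtain ⟨h₂, hh₂, hhE₂⟩ := hTOR K (RingEquiv.refl K) htau _ hLd (c / b) (htau1 _) (div_ne_zero hc hb0)
  have hG : k * (h₂ * h₁) ∈ GS (RingEquiv.refl K) := mul_mem hk (mul_mem hh₂ hh₁)
  obtain ⟨f₀, hf₀, hf₀h⟩ := G1 (k * (h₂ * h₁)) hG
  obtain ⟨hhE', hhA, -⟩ := g6 (k * (h₂ * h₁)) hG
  have hE3 : (k * (h₂ * h₁)) (E C6 th) = a • (E C6 u : Lm C6 K) := by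
    change k (h₂ (h₁ (E C6 th))) = _
    rw [hhE₁ _ hthth, i6, zpow_one, map_smul, hhE₂ _ hthth, i4, zpow_zero, one_smul, map_smul, hkth]
  have hE2 : (k * (h₂ * h₁)) (E C6 eta) = (c / b) • (E C6 v : Lm C6 K) := by
    change k (h₂ (h₁ (E C6 eta))) = _
    rw [hhE₁ _ hSe.1, i7, zpow_zero, one_smul, hhE₂ _ hSe.1, i5, zpow_one, map_smul, hket]
  have hE4 : (k * (h₂ * h₁)) (E C6 (pv eta)) = (c / b) • (E C6 (pv v) : Lm C6 K) := by
    change k (h₂ (h₁ (E C6 (pv eta)))) = _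
    rw [hhE₁ _ hpe, j1, zpow_zero, one_smul, hhE₂ _ hpe, j2, zpow_one, map_smul, hkpe]
  have Xe := f_XAU 6 C6 K _ (e3 _ (e2 eta hSe.1)).1
  have Xp := f_XAU 6 C6 K _ (e3 _ (e2 (pv eta) hpe)).1
  have Xt := f_XAU 6 C6 K _ (e3 _ (e2 th hthth)).1
  have Yu := f_XAU 6 C6 K _ (e3 _ (e2 u hu.1)).1
  have Yg := f_XAU 6 C6 K _ (e3 _ (e2 v hv.1)).1
  have Yp := f_XAU 6 C6 K _ (e3 _ (e2 (pv v) hpv)).1
  refine ⟨⟨f₀, hf₀⟩, fun w => ?_⟩
  rw [htinv]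
  have c1 : (((⟨f₀, hf₀⟩ * (x t * t) * (⟨f₀, hf₀⟩ : GF (RingEquiv.refl K))⁻¹ : GF (RingEquiv.refl K)) : Equiv.Perm (LT (RingEquiv.refl K))) w : Lm C6 K) =
      (k * (h₂ * h₁)) (((x t : GF (RingEquiv.refl K)) : Equiv.Perm (LT (RingEquiv.refl K))) (f₁ (f₀⁻¹ w)) : Lm C6 K) := by
    rw [← hf₀h]
    rfl
  rw [c1, hb, hf₁X, (Xe.2.2.1 (k * (h₂ * h₁)) hhA).2, (Xp.2.2.1 (k * (h₂ * h₁)) hhA).2, (Xt.2.2.1 (k * (h₂ * h₁)) hhA).2, hE2, hE4, hE3]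
  have c2 : (k * (h₂ * h₁)) ((f₀⁻¹ w : LT (RingEquiv.refl K)) : Lm C6 K) = w := by
    rw [← hf₀h]
    congr 1
    exact f₀.apply_symm_apply w
  rw [c2, (Yg.2.2.2 (c / b)).2, (Yp.2.2.2 (c / b)).2, (Yu.2.2.2 a).2, div_mul_cancel₀ c hb0, mul_one]
  have hcm : cm u v := by
    change 0 ≤ ip C6 u v + ip C6 u (pv v)
    have h3 := rip u (pv v)
    rw [hu.2, rpp] at h3
    rw [← h3, huv]
    norm_num
  rw [nA4 u v hu.1 hv.1 hcm a c]
  have c3 : (Rt v c * Rt u a : Lm C6 K ≃ₗ[K] Lm C6 K) (w : Lm C6 K) = Rt v c (Rt u a (w : Lm C6 K)) := rfl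
  have c4 : IsX C6 (E C6 u) a (Rt u a : Lm C6 K ≃ₗ[K] Lm C6 K) := (nA2 u hu a _).2 rfl
  have c5 : IsS (RingEquiv.refl K) v c (Rt v c : Lm C6 K ≃ₗ[K] Lm C6 K) := (nA3 v hv c _).2 rfl
  rw [c3, c5, c4, htau1, NMY_pm h2 (rsn _), one_mul]

end Pool.Agent.EXT
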