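import Pool.Agent.helper16.EXT.All3T

/-!
# Project EXT (MP_561ff4_al): `β_3(x) ≤ 3` for `F₄(q)` and `²E₆(q)`, all `q`

`x` is any automorphism `≠ 1` which permutes the long root subgroups: by `A3T.h_ARF` every automorphism unless `τ = 1` and `q` is even.
-/

set_option autoImplicit false

namespace Pool.Agent.EXT

open Pool.Agent.EXC

theorem R3T (K : Type) [Field K] [Finite K] (τ : K ≃+* K) (hτ : ∀ u, τ (τ u) = u) (x : MulAut (GF τ)) (hx : RAF τ x) (h1 : x ≠ 1) :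
    ∃ β, IsLeast (Pool.Agent.GS.CSet 3 x) β ∧ β ≤ 3 := by
  have key : ∃ k ∈ Pool.Agent.GS.CSet 3 x, k ≤ 3 := by
    by_cases h3 : 3 ∣ Nat.card K
    · obtain ⟨p, hp⟩ := CharP.exists K
      have := hp
      have : Fintype K := Fintype.ofFinite K
      obtain ⟨m, hpp, hm⟩ := FiniteField.card K p
      rw [Nat.card_eq_fintype_card, hm] at h3
      have : 3 = p := (Nat.prime_dvd_prime_iff_eq Nat.prime_three hpp).1 (Nat.prime_three.dvd_of_dvd_pow h3)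
      subst this
      exact ⟨2, A3T.h_BPF K τ hτ x hx h1 3 Nat.prime_three hp, by norm_num⟩
    · exact A3T.h_I3F K τ hτ h3 x hx h1
  obtain ⟨k, hk, hk3⟩ := key
  have hl : IsLeast (Pool.Agent.GS.CSet 3 x) (sInf (Pool.Agent.GS.CSet 3 x)) :=
    ⟨Nat.sInf_mem ⟨k, hk⟩, fun k hk => Nat.sInf_le hk⟩
  exact ⟨_, hl, (hl.2 hk).trans hk3⟩

/-- the version without hypothesis on `x` -/
theorem R3T' (K : Type) [Field K] [Finite K] (τ : K ≃+* K) (hτ : ∀ u, τ (τ u) = u) (h2 : (∃ u, τ u ≠ u) ∨ (2 : K) ≠ 0)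
    (x : MulAut (GF τ)) (h1 : x ≠ 1) : ∃ β, IsLeast (Pool.Agent.GS.CSet 3 x) β ∧ β ≤ 3 :=
  R3T K τ hτ x (A3T.h_ARF K τ hτ h2 x) h1

end Pool.Agent.EXT
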