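import Pool.Agent.helper17.EXT.Spec
import Pool.Agent.helper16.EXC.All3

/-!
# Project EXT (MP_561ff4_al), block I: `β_3(x) ≤ 3` for `F₄(q)` and `²E₆(q)`, `3 ∤ q`. The rows

Owner: helper16. RULES. Row `XXX`: file `Pool/Agent/<seat>/EXT3/XXX.lean` (directory EXT3), `import Pool.Agent.helper16.EXT.Spec3T`,
`set_option autoImplicit false`, `open Finset`, `namespace Pool.Agent.EXT`, `open Pool.Agent.EXC`, theorem line as in the lock note: other rows (of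
this file and of helper17's `EXT/Spec.lean`) only as hypotheses `(hXXX : XXX_stmt)`; you may drop hypotheses or add others of these two files. Auxiliary
lemmas prefixed `XXX_`. No straight double quotes, no convert / congr!. Land, note DONE + path, one line to helper16. A doubtful statement: tell me at once.

EVERY ROW IS THE `σ`-VERSION OF A PROVED ROW OF `Pool/Agent/*/EXC3/` (named in the docstring): COPY THAT FILE AND ADAPT IT. DICTIONARY: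
`EXF` becomes ESF (vectors) and GFX (elements of `GF`), `PCL` PCS, `TPF` and `TSY` TFS, `UNQ` UNF, `IMX` and `IMT` IMF (part 1 of IMX is `RAF` itself),
`FIX` FXF, `CNN` CNF, `GEO` GEF; `IsX C a t h` becomes `IsF τ a t f` (`f : Equiv.Perm (LT τ)`), `Tp C θ` becomes `TpS τ`, `Im C x` becomes `ImF τ x`.
All scalars are fixed (`τ c = c`), that is elements of the subfield `K0 τ` of `K`. Facts about the ambient Lie algebra `Lm C6 K` are theorems: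
`f_XAU`, `f_INV`, `f_ACT`, `f_COL`, .. (helper17) and `A3.g_ZMT`, `A3.g_ZZM`, `A3.g_ZAL`, `A3.g_ZNR`, `A3.g_ZQR`, `A3.g_ZGA`, `A3.g_ZGP`, `A3.g_ZEQ`, `A3.g_ZIN`,
`A3.g_ZTB` (`Pool/Agent/helper16/EXC/All3.lean`, statements in `Pool/Agent/helper16/EXC/Spec3.lean`); `f_DE6.2 : IsE CartanMatrix.E₆ 1 th ![0, 2, 3, 4, 5]`
(`![1, 2, 2, 3, 2, 1] = th` by `rfl`).
-/

set_option autoImplicit false

open Finset

namespace Pool.Agent.EXT

open Pool.Agent.EXC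

section defs
variable {K : Type} [Field K] (τ : K ≃+* K)

/-- the fixed field of `τ` -/
def K0 : Subfield K := RingHom.eqLocusField (τ : K →+* K) (RingHom.id K)

theorem K0_fix (u : K0 τ) : τ (u : K) = u := u.2

theorem K0_mem {u : K} (h : τ u = u) : u ∈ K0 τ := h

theorem K0_three [Finite K] (h : ¬ 3 ∣ Nat.card K) : ¬ 3 ∣ Nat.card (K0 τ) := by
  intro h3
  apply h
  have h1 : Nat.card (K0 τ).toSubring.toAddSubgroup ∣ Nat.card K := AddSubgroup.card_addSubgroup_dvd_card _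
  exact h3.trans h1

instance K0_finite [Finite K] : Finite (K0 τ) := Finite.of_injective (fun u : K0 τ => (u : K)) Subtype.val_injective

instance Lm_fin [Finite K] : Finite (Lm C6 K) := by
  unfold Lm
  infer_instance

instance GF_fin [Finite K] : Finite (GF τ) := by
  have h1 : Finite (Equiv.Perm (LT τ)) := inferInstance
  infer_instance

/-- `x (x_a(u)) = x_b(c σ(u))`, `u` in the fixed field -/
def SLF (x : MulAut (GF τ)) (σ : K0 τ ≃+* K0 τ) (a b : Lm C6 K) (c : K0 τ) : Prop :=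
  ∀ (u : K0 τ) (f : GF τ), IsF τ a (u : K) (f : Equiv.Perm (LT τ)) → IsF τ b ((c * σ u : K0 τ) : K) ((x f : GF τ) : Equiv.Perm (LT τ))

end defs

/-! ## A. Words -/

/-- **IPR** (short). As `ZPR` (`Pool/Agent/helper92/EXC3/ZPR.lean`). `x ^ (j+1) = x * x ^ j` or `x ^ j * x` (`MulAut.mul_apply`): compose the two equivalences `ImF`; `x ^ 0 = 1`: `b = a`. -/
def IPR_stmt : Prop := ∀ (K : Type) [Field K] (τ : K ≃+* K) (x : MulAut (GF τ)) (j : ℕ), RAF τ x → RAF τ (x ^ j)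

/-- **IW2** (medium). uses: RTF, ESF, GFX, SIG, SGR, TFS. Words in an opposite pair. `k a = c E th`, `k b = c' E β`, `(th,β) = -2`, so `β = -th` (`f_RFL` / Basic.lean). `e = E (th - sr 1)`, `f = E (-sr 1)` (long roots, `(th, sr 1) = 1`: RTF). By `f_ACT`: `x_th(u) f = f + u s e`, `x_th(u) e = e`,
`x_{-th}(v) e = e + v s' f`, `x_{-th}(v) f = f`, `s = sg C6 th (-sr 1)`, `s' = sg C6 (-th) (th - sr 1)`, `s s' = -1` (decide). The vectors `k⁻¹ (p e + q f)`, `p, q` fixed, are in `LT τ` (ESF, SIG), and `h (false, u)` maps `k⁻¹ (p e + q f)` to `k⁻¹ (x_th(c u) (p e + q f))` (`k` is an automorphism, SGR, `f_XAU` (3), (4)),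
`h (true, v)` to `k⁻¹ (x_{-th}(c' v) ..)`. So for a list `l` the product maps `k⁻¹ (p e + q f)` to `k⁻¹ (p' e + q' f)` with `(p', q') = N_l (p, q)`, `N_l` the product of the matrices `!![1, c u s; 0, 1]`, `!![1, 0; c' v s', 1]` over `K0 τ` (induction on `l`). Product `1`: `N_l = 1` (`e, f` independent: `cf`). Conjugate by
`diag(-s/c, 1)`: `!![1, -u; 0, 1]`, `!![1, 0; c c' v, 1]`, and `κ = fm a b = fm (k a) (k b) = c c'` (`fm_E_E`). Compare `Pool/Agent/helper29/EXC3/ZW2.lean`. -/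
def IW2_stmt : Prop := ∀ (K : Type) [Field K] (τ : K ≃+* K), (∀ x, τ (τ x) = x) → ∀ a b : Lm C6 K, TpS τ a b (-2) → ∀ κ : K0 τ, (κ : K) = fm C6 a b →
  ∀ h : Bool × K0 τ → GF τ, (∀ p, IsF τ (if p.1 then b else a) (p.2 : K) ((h p : GF τ) : Equiv.Perm (LT τ))) → ∀ l : List (Bool × K0 τ), (l.map h).prod = 1 →
  (l.map fun p => if p.1 then !![1, 0; κ * p.2, 1] else !![1, -p.2; 0, 1]).prod = (1 : Matrix (Fin 2) (Fin 2) (K0 τ))

/-- **IC0** (medium). uses: IW2, FXF, ESF, GFX, TFS. Port of `Pool/Agent/helper11/EXC3/ZC0.lean` (with `κ = -1`, `A3.g_ZMT` for the field `K0 τ`). -/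
def IC0_stmt : Prop := ∀ (K : Type) [Field K] (τ : K ≃+* K), (∀ x, τ (τ x) = x) → ∀ (b f : Lm C6 K) (t t' s s' : GF τ), TpS τ b f (-2) → fm C6 b f = -1 →
  IsF τ b 1 (t' : Equiv.Perm (LT τ)) → IsF τ f 1 (s : Equiv.Perm (LT τ)) →
  t * t' = t' * t → t * s = s * t → t' * s' = s' * t' → s * s' = s' * s →
  ∀ m : ℕ, (MulAut.conj ((t' * t⁻¹) * (s' * s⁻¹))) ^ m = 1 → 3 ∣ m

/-- **IFN** (short-medium). uses: RTF, ESF, SGR, PCS, TFS. The fourth point. Port of `Pool/Agent/helper42/EXC3/ZFN.lean`: `k a = c E th`, `k b = c' E β` (`TpS`), `f = μ k⁻¹ (E (-β))`, `-β` is a long root (RTF), `μ` fixed such that `fm b f = -1`. -/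
def IFN_stmt : Prop := ∀ (K : Type) [Field K] (τ : K ≃+* K), (∀ x, τ (τ x) = x) → ∀ a b : Lm C6 K,
  (TpS τ a b 0 → ∃ f, ExS τ f ∧ TpS τ a f 0 ∧ TpS τ b f (-2) ∧ fm C6 b f = -1) ∧
  (TpS τ a b (-1) → ∃ f, ExS τ f ∧ TpS τ a f 1 ∧ TpS τ b f (-2) ∧ fm C6 b f = -1)

/-- **IAD** (medium). uses: RTF, ESF, SGR, TFS. A collinear pair. Port of `Pool/Agent/helper88/EXC3/ZAD.lean`: `th - β` is a long root; the second part follows from `A3.g_ZAD` (ambient: take `g, h` in `GE` with `IsX`) or from `f_COL` as there. -/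
def IAD_stmt : Prop := ∀ (K : Type) [Field K] (τ : K ≃+* K), (∀ x, τ (τ x) = x) → ∀ a b : Lm C6 K, TpS τ a b 1 → ∀ u v : K, τ u = u → τ v = v → (u ≠ 0 ∨ v ≠ 0) →
  ExS τ (u • a + v • b) ∧ ∀ g h : GF τ, IsF τ a u (g : Equiv.Perm (LT τ)) → IsF τ b v (h : Equiv.Perm (LT τ)) →
    IsF τ (u • a + v • b) 1 ((g * h : GF τ) : Equiv.Perm (LT τ))

/-- **IJC** (medium). uses: FXF, ESF, GFX, SIG. Port of `Pool/Agent/helper83/EXC3/ZJC.lean`. `z = (t' t⁻¹)² ((s' s⁻¹)²)⁻¹`. For `M` with entries in `K0 τ` and trace zero `ι M = i3 C6 e1 e2 f1 f2 (M.map (↑)) ∈ LT τ` (SIG), `z (ι M) = ι (Z M Z')` (`A3.g_ZEQ`). `conj z ^ m = 1`: `z^m = 1` (FXF), so `ι (Z^m M Z'^m - M) = 0`,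
`A3.g_ZIN` (ambient), `Z^m M = M Z^m` over `K0 τ`; `A3.g_ZZM` for `K0 τ`. -/
def IJC_stmt : Prop := ∀ (K : Type) [Field K] (τ : K ≃+* K), (∀ x, τ (τ x) = x) → (3 : K) ≠ 0 → ∀ (e1 e2 f1 f2 : Lm C6 K) (t t' s s' : GF τ),
  ExS τ e1 → ExS τ e2 → ExS τ f1 → ExS τ f2 → S3 C6 e1 e2 f1 f2 →
  IsF τ e1 1 (t : Equiv.Perm (LT τ)) → IsF τ e2 1 (t' : Equiv.Perm (LT τ)) → IsF τ f2 1 (s : Equiv.Perm (LT τ)) →
  IsF τ f1 (-1) (s' : Equiv.Perm (LT τ)) → ∀ m : ℕ, (MulAut.conj ((t' * t⁻¹) ^ 2 * ((s' * s⁻¹) ^ 2)⁻¹)) ^ m = 1 → 3 ∣ m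

/-! ## B. Semilinearity -/

/-- **IKS** (medium). uses: ESF, GFX, UNF, SGR, TFS, PCS. Port of `Pool/Agent/helper39/EXC3/ZKS.lean` (the conjugation `g x_e(1) g⁻¹ = x_(ge)(1)` in `GF`: GFX, last part; coefficients in the ambient algebra). -/
def IKS_stmt : Prop := ∀ (K : Type) [Field K] (τ : K ≃+* K), (∀ x, τ (τ x) = x) → ∀ (x : MulAut (GF τ)) (σ : K0 τ ≃+* K0 τ) (a b : Lm C6 K) (κ c d : K0 τ),
  ExS τ a → ExS τ b → (κ : K) = fm C6 a b → κ ≠ 0 → c ≠ 0 → d ≠ 0 → SLF τ x σ a b c → SLF τ x σ b a d → σ κ = κ * c * d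

/-- **ISE** (medium). uses: ESF, GFX, UNF, IMF, TFS, IAD. Port of `Pool/Agent/helper9/EXC3/ZSE.lean` (the lemma `ZSE_field` there is used for the field `K0 τ`). -/
def ISE_stmt : Prop := ∀ (K : Type) [Field K] (τ : K ≃+* K), (∀ x, τ (τ x) = x) → ∀ x : MulAut (GF τ), RAF τ x → ∀ a b a2 b2 : Lm C6 K,
  ExS τ a → ExS τ b → ExS τ a2 → ExS τ b2 → ImF τ x a b → ImF τ x a2 b2 → TpS τ a a2 1 →
  ∃ σ : K0 τ ≃+* K0 τ, (∃ c, c ≠ 0 ∧ SLF τ x σ a b c) ∧ ∃ c, c ≠ 0 ∧ SLF τ x σ a2 b2 c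

/-- **ISC** (short-medium). uses: ISE, CNF, IMF, TFS, ESF, GFX, RTF. Port of `Pool/Agent/helper42/EXC3/ZSC.lean`. Start: `E th` and `E (th - sr 1)` have type 1. -/
def ISC_stmt : Prop := ∀ (K : Type) [Field K] (τ : K ≃+* K), (∀ x, τ (τ x) = x) → ∀ x : MulAut (GF τ), RAF τ x →
  ∃ σ : K0 τ ≃+* K0 τ, ∀ a b : Lm C6 K, ExS τ a → ExS τ b → ImF τ x a b → ∃ c, c ≠ 0 ∧ SLF τ x σ a b c

/-- **ISL** (short-medium). uses: ESF, GFX, UNF, RTF. Port of `Pool/Agent/helper98/EXC3/ZSL.lean`. -/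
def ISL_stmt : Prop := ∀ (K : Type) [Field K] (τ : K ≃+* K), (∀ x, τ (τ x) = x) → ∀ x : MulAut (GF τ), RAF τ x → ∀ σ : K0 τ ≃+* K0 τ,
  (∀ a b : Lm C6 K, ExS τ a → ExS τ b → ImF τ x a b → ∃ c, c ≠ 0 ∧ SLF τ x σ a b c) → ∀ ℓ : ℕ, x ^ ℓ = 1 → ∀ u, (⇑σ)^[ℓ] u = u

/-! ## C. The three cases and the theorem -/

/-- **IM0** (short-medium). uses: IC0, IFN, IMF, TFS, PCS, ESF, GFX. Port of `Pool/Agent/helper89/EXC3/ZM0.lean` (`A3.g_ZGA`). -/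
def IM0_stmt : Prop := ∀ (K : Type) [Field K] [Finite K] (τ : K ≃+* K), (∀ x, τ (τ x) = x) → ∀ x : MulAut (GF τ), RAF τ x →
  (∀ (c c' : Lm C6 K) (m : ℤ), ExS τ c → ExS τ c' → ImF τ x c c' → TpS τ c c' m → 0 ≤ m) →
  ∀ a b : Lm C6 K, ExS τ a → ExS τ b → ImF τ x a b → TpS τ a b 0 → 3 ∈ Pool.Agent.GS.CSet 3 x

/-- **IM1** (medium). uses: IJC, IFN, IAD, IMF, TFS, UNF, ESF, GFX. Port of `Pool/Agent/helper45/EXC3/ZM1.lean` (`A3.g_ZGA`; `Xtr` from `f_EXF`, ESF). -/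
def IM1_stmt : Prop := ∀ (K : Type) [Field K] [Finite K] (τ : K ≃+* K), (∀ x, τ (τ x) = x) → (3 : K) ≠ 0 → ∀ x : MulAut (GF τ), RAF τ x →
  (∀ c c' : Lm C6 K, ExS τ c → ExS τ c' → ImF τ x c c' → fm C6 c c' = 0) →
  ∀ a b : Lm C6 K, ExS τ a → ExS τ b → ImF τ x a b → TpS τ a b (-1) → 3 ∈ Pool.Agent.GS.CSet 3 x

/-- **IM2** (medium). uses: IW2, ISC, ISL, IKS, FXF, ESF, GFX, TFS. Port of `Pool/Agent/helper22/EXC3/ZM2.lean`, everything over the field `K0 τ` (`K0_three`, `A3.g_ZMT`, `A3.g_ZQR`, `A3.g_ZAL`, `A3.g_ZNR`, `f_GRP`); `κ : K0 τ` with `(κ : K) = fm C6 a b`: `τ (fm a b) = fm (σ a) (σ b) = fm a b`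
(SIG, ESF). -/
def IM2_stmt : Prop := ∀ (K : Type) [Field K] [Finite K] (τ : K ≃+* K), (∀ x, τ (τ x) = x) → ¬ 3 ∣ Nat.card K → ∀ x : MulAut (GF τ), RAF τ x →
  (orderOf x).Prime → ∀ a b : Lm C6 K, ExS τ a → ExS τ b → ImF τ x a b → TpS τ a b (-2) → 2 ∈ Pool.Agent.GS.CSet 3 x

/-- **I3F** (short-medium). uses: IPR, IM0, IM1, IM2, GEF, PCS, TFS. Port of `Pool/Agent/helper51/EXC3/Z3F.lean` (`A3.g_ZGP`). -/
def I3F_stmt : Prop := ∀ (K : Type) [Field K] [Finite K] (τ : K ≃+* K), (∀ x, τ (τ x) = x) → ¬ 3 ∣ Nat.card K → ∀ x : MulAut (GF τ), RAF τ x → x ≠ 1 →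
  ∃ k ∈ Pool.Agent.GS.CSet 3 x, k ≤ 3

end Pool.Agent.EXT
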